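import Pool.Agent.Helper53.UV.Cell

/-!
# PROJECT UR2 (MP_c578c8_lc): AVG (the offset)
-/

set_option autoImplicit false

namespace Pool.Agent.Helper31.UV

open Pool.Agent.Helper53.UV

/-- At most one offset. -/
theorem card_dvd (D c : ℕ) : ((Finset.range D).filter fun o => D ∣ c + o).card ≤ 1 := by
  rw [Finset.card_le_one]
  intro a ha b hb
  rw [Finset.mem_filter, Finset.mem_range] at ha hb
  have h1 : ∀ x y : ℕ, x < D → y < D → D ∣ c + x → D ∣ c + y → x ≤ y → x = y := by
    intro x y _ hy hx' hy' hxy
    have h2 : D ∣ y - x := by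
      have h3 : y - x = (c + y) - (c + x) := by omega
      rw [h3]
      exact Nat.dvd_sub hy' hx'
    have h4 := Nat.eq_zero_of_dvd_of_lt h2 (by omega)
    omega
  rcases le_total a b with h | h
  · exact h1 a b ha.1 hb.1 ha.2 hb.2 h
  · exact (h1 b a hb.1 ha.1 hb.2 ha.2 h).symm

theorem succ_div_ne {D x : ℕ} (h : (x + 1) / D ≠ x / D) : D ∣ x + 1 := by
  by_contra hne
  rw [Nat.succ_div, if_neg hne] at h
  exact h rfl

/-- At most two offsets. -/
theorem card_off (D a b : ℕ) (h1 : a ≤ b) (h2 : b ≤ a + 2) :
    ((Finset.range D).filter fun o => (b + o) / D ≠ (a + o) / D).card ≤ 2 := by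
  have h3 : ((Finset.range D).filter fun o => (b + o) / D ≠ (a + o) / D) ⊆
      ((Finset.range D).filter fun o => D ∣ a + 1 + o) ∪
        ((Finset.range D).filter fun o => D ∣ a + 2 + o) := by
    intro o ho
    rw [Finset.mem_filter] at ho
    rw [Finset.mem_union, Finset.mem_filter, Finset.mem_filter]
    obtain ⟨ho1, ho2⟩ := ho
    rcases Nat.lt_trichotomy b (a + 1) with h | h | h
    · have : b = a := by omega
      subst this
      exact absurd rfl ho2
    · subst h
      refine Or.inl ⟨ho1, ?_⟩
      have e1 : a + 1 + o = a + o + 1 := by ring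
      rw [e1] at ho2 ⊢
      exact succ_div_ne ho2
    · have : b = a + 2 := by omega
      subst this
      by_cases h4 : (a + o + 1) / D = (a + o) / D
      · refine Or.inr ⟨ho1, ?_⟩
        have e1 : a + 2 + o = a + o + 1 + 1 := by ring
        rw [e1] at ho2 ⊢
        rw [← h4] at ho2
        exact succ_div_ne ho2
      · refine Or.inl ⟨ho1, ?_⟩
        have e1 : a + 1 + o = a + o + 1 := by ring
        rw [e1]
        exact succ_div_ne h4
  calc _ ≤ _ := Finset.card_le_card h3
    _ ≤ _ := Finset.card_union_le _ _
    _ ≤ 1 + 1 := Nat.add_le_add (card_dvd D (a + 1)) (card_dvd D (a + 2))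

/-- **AVG.** -/
theorem gAVG : GoalAVG := by
  intro f D r hD hf
  have hcard : ∀ o, {t : ℕ | t < r ∧ (f (t + 1) + o) / D ≠ (f t + o) / D}.ncard =
      ((Finset.range r).filter fun t => (f (t + 1) + o) / D ≠ (f t + o) / D).card := by
    intro o
    rw [← Set.ncard_coe_finset]
    congr 1
    ext t
    simp
  have hsum : ∑ o ∈ Finset.range D,
      ((Finset.range r).filter fun t => (f (t + 1) + o) / D ≠ (f t + o) / D).card ≤ 2 * r := by
    have h1 : ∑ o ∈ Finset.range D,
        ((Finset.range r).filter fun t => (f (t + 1) + o) / D ≠ (f t + o) / D).card =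
        ∑ t ∈ Finset.range r,
        ((Finset.range D).filter fun o => (f (t + 1) + o) / D ≠ (f t + o) / D).card := by
      simp only [Finset.card_filter]
      exact Finset.sum_comm
    rw [h1]
    calc _ ≤ ∑ _t ∈ Finset.range r, 2 := Finset.sum_le_sum fun t ht => by
          obtain ⟨h2, h3⟩ := hf t (Finset.mem_range.1 ht)
          rcases le_total (f t) (f (t + 1)) with h | h
          · exact card_off D _ _ h h2
          · have h4 := card_off D _ _ h h3
            refine le_trans (le_of_eq ?_) h4
            congr 1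
            refine Finset.filter_congr fun o _ => ?_
            exact ne_comm
      _ = 2 * r := by rw [Finset.sum_const, Finset.card_range, smul_eq_mul, mul_comm]
  by_contra hne
  push Not at hne
  have h2 : ∑ _o ∈ Finset.range D, (2 * r + 1) ≤ ∑ o ∈ Finset.range D,
      ((Finset.range r).filter fun t => (f (t + 1) + o) / D ≠ (f t + o) / D).card * D := by
    refine Finset.sum_le_sum fun o ho => ?_
    have h3 := hne o (Finset.mem_range.1 ho)
    rw [hcard] at h3
    omega
  rw [Finset.sum_const, Finset.card_range, smul_eq_mul, ← Finset.sum_mul] at h2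
  have h4 := Nat.mul_le_mul_right D hsum
  nlinarith

end Pool.Agent.Helper31.UV
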