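import Pool.Agent.Helper53.UV.Cell

/-!
# PROJECT UR2 (MP_c578c8_lc): the arithmetic of CMB
-/

set_option autoImplicit false

namespace Pool.Agent.Helper31.UV

open Pool.Agent.Helper65.LinSpace Pool.Agent.Helper78.Mpc
open Pool.Agent.Helper65.BR (BM)
open Pool.Agent.Helper53.UV

/-- The completeness of the machine with a memory of blocks, with explicit bounds. -/
def CompK (M : CM) (A : BM) (K : ℕ) : Prop :=
  ∀ (w y : List Bool) (D o o' r s m h k : ℕ), 0 < D → M.AcceptsAt w y r → r < 2 ^ k →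
    w.length < 2 ^ s → o < 2 ^ s → M.Fits w y D o o' r s m h →
    ∃ (p : List Bool) (R g : ℕ), A.AcceptsAt w y p R ∧
      p.length ≤ K * (D * (h + 1) + s + k) ∧
      A.Fits w y p R (K * (D * (h + 1) + s + k)) (m + K) (K * (D * (h + 1) + s + k)) ∧
      g ≤ K * (s + 1) ∧
      (∀ t < R, (A.blk (A.conf w y p t).1).head? = some true →
        num (A.conf w y p (t + 1)).1 / 2 ^ g = num (A.conf w y p t).1 / 2 ^ g) ∧
      A.reads w y p R ≤ K * (M.chg w y D o o' r + 1)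

theorem arith {K : ℕ} {C n l l' x X g s S : ℝ} (hl : 1 ≤ l) (hl' : 0 ≤ l')
    (hll : l' ≤ (K + 1) * l) (hn : 1 ≤ n) (hx : 0 ≤ x) (hX : X ≤ K * (x + 1))
    (hg0 : 0 ≤ g) (hg : g ≤ K * (s + 1)) (hs : 0 ≤ s) (hS : s + 1 ≤ S)
    (b1 : x * (s + 1) * l ^ 4 ≤ C * n ^ 2) (b2 : S * l ^ 4 ≤ C * n) :
    X * (g + 1) * l' ^ 4 ≤ (4 * (K + 1) ^ 6 * |C|) * n ^ 2 ∧
      (K * S + K * S + g) * l' ^ 4 ≤ (4 * (K + 1) ^ 6 * |C|) * n := by
  have hK : (0 : ℝ) ≤ K := Nat.cast_nonneg K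
  have hCC := le_abs_self C
  have hC0 := abs_nonneg C
  have hl4 : l' ^ 4 ≤ (K + 1) ^ 4 * l ^ 4 := by
    calc l' ^ 4 ≤ ((K + 1) * l) ^ 4 := pow_le_pow_left₀ hl' hll 4
      _ = (K + 1) ^ 4 * l ^ 4 := mul_pow _ _ _
  have hl40 : 0 ≤ l ^ 4 := by positivity
  have hl'40 : 0 ≤ l' ^ 4 := pow_nonneg hl' 4
  have hS0 : 0 ≤ S := by linarith
  have hg1 : g + 1 ≤ (K + 1) * (s + 1) := by nlinarith
  have hX1 : X ≤ (K + 1) * (x + 1) := by nlinarith
  have hnn : n ≤ n ^ 2 := by nlinarith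
  have b1' : x * (s + 1) * l ^ 4 ≤ |C| * n ^ 2 :=
    b1.trans (mul_le_mul_of_nonneg_right hCC (by positivity))
  have b2' : S * l ^ 4 ≤ |C| * n := b2.trans (mul_le_mul_of_nonneg_right hCC (by linarith))
  have b3 : (s + 1) * l ^ 4 ≤ |C| * n := (mul_le_mul_of_nonneg_right hS hl40).trans b2'
  have b4 : |C| * n ≤ |C| * n ^ 2 := mul_le_mul_of_nonneg_left hnn hC0
  have e1 : (1 : ℝ) ≤ (K + 1) ^ 6 := one_le_pow₀ (by linarith)
  constructor
  · calc X * (g + 1) * l' ^ 4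
        ≤ ((K + 1) * (x + 1)) * ((K + 1) * (s + 1)) * ((K + 1) ^ 4 * l ^ 4) := by
          refine mul_le_mul (mul_le_mul hX1 hg1 (by linarith) (by positivity)) hl4 hl'40
            (by positivity)
      _ = (K + 1) ^ 6 * (x * (s + 1) * l ^ 4 + (s + 1) * l ^ 4) := by ring
      _ ≤ (K + 1) ^ 6 * (|C| * n ^ 2 + |C| * n ^ 2) :=
          mul_le_mul_of_nonneg_left (add_le_add b1' (b3.trans b4)) (by positivity)
      _ ≤ (4 * (K + 1) ^ 6 * |C|) * n ^ 2 := by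
          have : 0 ≤ (K + 1 : ℝ) ^ 6 * (|C| * n ^ 2) := by positivity
          linarith
  · have h5 : K * S + K * S + g ≤ 3 * ((K + 1) * S) := by nlinarith
    calc (K * S + K * S + g) * l' ^ 4 ≤ (3 * ((K + 1) * S)) * ((K + 1) ^ 4 * l ^ 4) :=
          mul_le_mul h5 hl4 hl'40 (by positivity)
      _ = 3 * (K + 1) ^ 5 * (S * l ^ 4) := by ring
      _ ≤ 3 * (K + 1) ^ 5 * (|C| * n) := mul_le_mul_of_nonneg_left b2' (by positivity)
      _ ≤ (4 * (K + 1) ^ 6 * |C|) * n := by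
          have h6 : (K + 1 : ℝ) ^ 5 ≤ (K + 1) ^ 6 := pow_le_pow_right₀ (by linarith) (by norm_num)
          have h7 : 0 ≤ |C| * n := by positivity
          have h8 : 0 ≤ (K + 1 : ℝ) ^ 6 * (|C| * n) := by positivity
          have h9 := mul_le_mul_of_nonneg_right h6 h7
          linarith

/-- **The arithmetic.** -/
theorem within_of {M : CM} {A : BM} {K : ℕ} (hK : CompK M A K) (C : ℝ) :
    ∀ w y : List Bool, M.Within C w y → WithinV A (4 * (K + 1) ^ 6 * |C|) w y := by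
  rintro w y ⟨D, o, o', r, s, m, h, k, hD, hacc, hr, hw, ho, hfit, b1, b2⟩
  obtain ⟨p, R, g, h1, h2, h3, h4, h5, h6⟩ := hK w y D o o' r s m h k hD hacc hr hw ho hfit
  have hg : (g : ℝ) ≤ K * ((s : ℝ) + 1) := by exact_mod_cast h4
  have hR : (A.reads w y p R : ℝ) ≤ K * ((M.chg w y D o o' r : ℝ) + 1) := by exact_mod_cast h6
  have hDr : (1 : ℝ) ≤ D := by exact_mod_cast hD
  have hh : (0 : ℝ) ≤ h := Nat.cast_nonneg h
  have hk : (0 : ℝ) ≤ k := Nat.cast_nonneg k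
  have hs : (0 : ℝ) ≤ s := Nat.cast_nonneg s
  have hm : (0 : ℝ) ≤ m := Nat.cast_nonneg m
  have hKr : (0 : ℝ) ≤ K := Nat.cast_nonneg K
  have hn : (0 : ℝ) ≤ w.length := Nat.cast_nonneg _
  have hlg : (0 : ℝ) ≤ (Nat.log 2 w.length : ℝ) := Nat.cast_nonneg _
  have hS : (s : ℝ) + 1 ≤ (D : ℝ) * ((h : ℝ) + 1) + s + k := by nlinarith
  obtain ⟨c1, c2⟩ := arith (K := K) (C := C) (n := (w.length : ℝ) + 1)
    (l := (m : ℝ) + ((Nat.log 2 w.length : ℝ) + 1))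
    (l' := ((m + K : ℕ) : ℝ) + ((Nat.log 2 w.length : ℝ) + 1))
    (x := (M.chg w y D o o' r : ℝ)) (X := (A.reads w y p R : ℝ)) (g := (g : ℝ)) (s := (s : ℝ))
    (S := (D : ℝ) * ((h : ℝ) + 1) + s + k) (by linarith) (by positivity) (by
      push_cast
      nlinarith) (by linarith) (Nat.cast_nonneg _) hR (Nat.cast_nonneg _) hg hs hS b1 b2
  refine ⟨p, R, K * (D * (h + 1) + s + k), m + K, K * (D * (h + 1) + s + k), g, h1, h2, h3, h5,
    c1, ?_⟩
  refine le_trans (le_of_eq ?_) c2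
  push_cast
  ring

/-- **CMB**, from soundness and completeness. -/
theorem cmb_of (h : ∀ M : CM, ∃ (A : BM) (K : ℕ),
    (∀ w y : List Bool, (∃ p r, A.AcceptsAt w y p r) → ∃ t, M.AcceptsAt w y t) ∧ CompK M A K) :
    GoalCMB := by
  intro M
  obtain ⟨A, K, h1, h2⟩ := h M
  exact ⟨A, h1, fun C => ⟨_, within_of h2 C⟩⟩

end Pool.Agent.Helper31.UV
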