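import Pool.Agent.Helper53.UV.Prg
import Pool.Agent.Helper81.RR.Sim
import Pool.Agent.Helper92.RE.Good

/-!
# PRC: programs which work in blocks, as cell machines

The state is the code of (number of the next instruction, length of `w`, fixed registers, last register
which was accessed, last letter).
-/

namespace Pool.Agent.Helper31.UV.PRC

open Pool.Agent.Helper65.LinSpace Pool.Agent.Helper78.Mpc
open Pool.Agent.Helper81.RP (Ins lett step AcceptsAt conf conf_succ ls_pair a0 a1 dst npc uu ls_a1 ls_dst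
  ls_npc selF selF_eq ls_selF isA accF accF_le accF_eq_one ls_accF bd pair_lt a0_le
  cst cst_le pc_le)
open Pool.Agent.Helper92.RE
open Pool.Agent.Helper81.RR (isL isSt getV setV tup getV_tup setV_tup tup_zero tup_lt ls_getV ls_setV mem
  mem_eq mem_lt a1_le' isSt_ne)
open Pool.Agent.Helper53.UV

/-! ### Codes of states -/

/-- The code of a state. -/
def mk (p n r c e : ℕ) : ℕ := Nat.pair p (Nat.pair n (Nat.pair r (Nat.pair c e)))

/-- The components. -/
def k1 (S : ℕ) : ℕ := (Nat.unpair S).1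

/-- The components. -/
def k2 (S : ℕ) : ℕ := (Nat.unpair (Nat.unpair S).2).1

/-- The components. -/
def k3 (S : ℕ) : ℕ := (Nat.unpair (Nat.unpair (Nat.unpair S).2).2).1

/-- The components. -/
def k4 (S : ℕ) : ℕ := (Nat.unpair (Nat.unpair (Nat.unpair (Nat.unpair S).2).2).2).1

/-- The components. -/
def k5 (S : ℕ) : ℕ := (Nat.unpair (Nat.unpair (Nat.unpair (Nat.unpair S).2).2).2).2

section

variable (p n r c e : ℕ)

theorem k1_mk : k1 (mk p n r c e) = p := by simp [k1, mk]

theorem k2_mk : k2 (mk p n r c e) = n := by simp [k2, mk]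

theorem k3_mk : k3 (mk p n r c e) = r := by simp [k3, mk]

theorem k4_mk : k4 (mk p n r c e) = c := by simp [k4, mk]

theorem k5_mk : k5 (mk p n r c e) = e := by simp [k5, mk]

end

theorem mk_lt {p n r c e k : ℕ} (hp : p < 2 ^ k) (hn : n < 2 ^ k) (hr : r < 2 ^ k) (hc : c < 2 ^ k)
    (he : e < 2 ^ k) : mk p n r c e < 2 ^ (16 * k) := by
  have m1 : 2 ^ k ≤ 2 ^ (2 * k) := Nat.pow_le_pow_right (by norm_num) (by omega)
  have m2 : 2 ^ k ≤ 2 ^ (4 * k) := Nat.pow_le_pow_right (by norm_num) (by omega)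
  have m3 : 2 ^ k ≤ 2 ^ (8 * k) := Nat.pow_le_pow_right (by norm_num) (by omega)
  have h1 := pair_lt hc he
  have h2 := pair_lt (hr.trans_le m1) h1
  have h3 := pair_lt (hn.trans_le m2) (by rw [show 4 * k = 2 * (2 * k) by ring]; exact h2)
  have h4 := pair_lt (hp.trans_le m3) (by rw [show 8 * k = 2 * (4 * k) by ring]; exact h3)
  rw [show 16 * k = 2 * (8 * k) by ring]
  exact h4

/-! ### The functions of the machine -/

/-- The content of the first register. -/
def uF (m S : ℕ) (o : Option Ins) : ℕ := getV m (k3 S) (a0 o)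

/-- The content of the second register, or the letter. -/
def vF (m S L Z : ℕ) (o : Option Ins) : ℕ :=
  ifz (inpL o) (ifz (lt01 (a1 o (uF m S o)) m) Z (getV m (k3 S) (a1 o (uF m S o)))) L

/-- The cell. -/
def ceO (m S : ℕ) (o : Option Ins) : ℕ := ifz (isL o + isSt o) (k4 S) (uF m S o)

/-- The virtual address. -/
def adO (m S : ℕ) (o : Option Ins) : ℕ := ifz (inpL o) (k5 S) (2 * uF m S o + (inpL o - 1))

/-- The new state. -/
def nxO (m : ℕ) (S L Z : ℕ) (o : Option Ins) : ℕ :=
  mk (npc o (k1 S) (uF m S o)) (k2 S)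
    (setV m (k3 S) (dst o (uF m S o)) (valL o (uF m S o) (vF m S L Z o))) (ceO m S o) (adO m S o)

/-- The new content. -/
def wrO (m : ℕ) (S L Z : ℕ) (o : Option Ins) : ℕ := ifz (isSt o) Z (vF m S L Z o)

section

variable {α : Type} [Ctx α]

theorem ls_k1 {S : α → ℕ} (hS : LS S) : LS (fun a => k1 (S a)) := by
  unfold k1
  fun_prop

theorem ls_k2 {S : α → ℕ} (hS : LS S) : LS (fun a => k2 (S a)) := by
  unfold k2
  fun_prop

theorem ls_k3 {S : α → ℕ} (hS : LS S) : LS (fun a => k3 (S a)) := by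
  unfold k3
  fun_prop

theorem ls_k4 {S : α → ℕ} (hS : LS S) : LS (fun a => k4 (S a)) := by
  unfold k4
  fun_prop

theorem ls_k5 {S : α → ℕ} (hS : LS S) : LS (fun a => k5 (S a)) := by
  unfold k5
  fun_prop

theorem ls_mk {p n r c e : α → ℕ} (hp : LS p) (hn : LS n) (hr : LS r) (hc : LS c) (he : LS e) :
    LS (fun a => mk (p a) (n a) (r a) (c a) (e a)) := by
  unfold mk
  exact ls_pair hp (ls_pair hn (ls_pair hr (ls_pair hc he)))

theorem ls_uF (m : ℕ) (o : Option Ins) {S : α → ℕ} (hS : LS S) :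
    LS (fun a => uF m (S a) o) := ls_getV m (ls_k3 hS) (LS.const _)

theorem ls_vF (m : ℕ) (o : Option Ins) {S L Z : α → ℕ} (hS : LS S) (hL : LS L) (hZ : LS Z) :
    LS (fun a => vF m (S a) (L a) (Z a) o) := by
  have hu := ls_uF m o hS
  have h1 := ls_a1 o hu
  have h3 := ls_getV m (ls_k3 hS) h1
  exact LS.ifz (LS.const _) (LS.ifz (LS.lt01 h1 (LS.const _)) hZ h3) hL

theorem ls_ceO (m : ℕ) (o : Option Ins) {S : α → ℕ} (hS : LS S) :
    LS (fun a => ceO m (S a) o) := LS.ifz (LS.const _) (ls_k4 hS) (ls_uF m o hS)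

theorem ls_adO (m : ℕ) (o : Option Ins) {S : α → ℕ} (hS : LS S) :
    LS (fun a => adO m (S a) o) :=
  LS.ifz (LS.const _) (ls_k5 hS) (LS.add (LS.mul (LS.const 2) (ls_uF m o hS)) (LS.const _))

theorem ls_nxO (m : ℕ) (o : Option Ins) {S L Z : α → ℕ} (hS : LS S) (hL : LS L) (hZ : LS Z) :
    LS (fun a => nxO m (S a) (L a) (Z a) o) := by
  have hu := ls_uF m o hS
  have hv := ls_vF m o hS hL hZ
  exact ls_mk (ls_npc o (ls_k1 hS) hu) (ls_k2 hS)
    (ls_setV m (ls_k3 hS) (ls_dst o hu) (ls_valL o hu hv)) (ls_ceO m o hS) (ls_adO m o hS)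

theorem ls_wrO (m : ℕ) (o : Option Ins) {S L Z : α → ℕ} (hS : LS S) (hL : LS L) (hZ : LS Z) :
    LS (fun a => wrO m (S a) (L a) (Z a) o) := LS.ifz (LS.const _) hZ (ls_vF m o hS hL hZ)

end

/-- The address of the letters. -/
def adN (D : LD) (n u : ℕ) : ℕ := ifz (u % 2) (adr1 D n (u / 2)) (u / 2)

/-- The virtual letter. -/
def lfN (D : LD) (n u a b : ℕ) : ℕ := ifz (u % 2) (D.lt n (u / 2) a % 4) (b % 4)

theorem lfN_lt (D : LD) (n u a b : ℕ) : lfN D n u a b < 16 := by
  unfold lfN ifz
  split_ifs <;> omega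

/-- The cell machine which runs the program. -/
def mach (D : LD) (P : List Ins) : CM where
  ad := adN D
  lf := lfN D
  k0 n := mk 0 n 0 0 0
  cel S := selF (fun o S => ceO (bd P + 1) S o) P (k1 S) S
  adr S := selF (fun o S => adO (bd P + 1) S o) P (k1 S) S
  nx S L Z := selF (fun o z => nxO (bd P + 1) z.1 z.2.1 z.2.2 o) P (k1 S) (S, L, Z)
  wr S L Z := selF (fun o z => wrO (bd P + 1) z.1 z.2.1 z.2.2 o) P (k1 S) (S, L, Z)
  acc S := accF P (k1 S)
  hlf := lfN_lt D
  ls_ad := by
    have h1 : LS (fun z : ℕ × ℕ => z.1) := by fun_prop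
    have h2 : LS (fun z : ℕ × ℕ => z.2 / 2) := by fun_prop
    exact LS.ifz (by fun_prop) (ls_adr1 D h1 h2) h2
  ls_lf := by
    have h1 : LS (fun z : ℕ × ℕ × ℕ × ℕ => z.1) := by fun_prop
    have h2 : LS (fun z : ℕ × ℕ × ℕ × ℕ => z.2.1 / 2) := by fun_prop
    have h3 : LS (fun z : ℕ × ℕ × ℕ × ℕ => z.2.2.1) := by fun_prop
    have h4 := D.ls_lt' h1 h2 h3
    exact LS.ifz (by fun_prop) (LS.mod h4 (LS.const 4)) (by fun_prop)
  ls_k0 := ls_mk (LS.const 0) (by fun_prop) (LS.const 0) (LS.const 0) (LS.const 0)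
  ls_cel := by
    have hi : LS (fun x : ℕ => x) := by fun_prop
    exact ls_selF (fun o => ls_ceO _ o hi) P (ls_k1 hi)
  ls_adr := by
    have hi : LS (fun x : ℕ => x) := by fun_prop
    exact ls_selF (fun o => ls_adO _ o hi) P (ls_k1 hi)
  ls_nx := by
    have h1 : LS (fun z : ℕ × ℕ × ℕ => z.1) := by fun_prop
    have h2 : LS (fun z : ℕ × ℕ × ℕ => z.2.1) := by fun_prop
    have h3 : LS (fun z : ℕ × ℕ × ℕ => z.2.2) := by fun_prop
    exact ls_selF (fun o => ls_nxO _ o h1 h2 h3) P (ls_k1 h1)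
  ls_wr := by
    have h1 : LS (fun z : ℕ × ℕ × ℕ => z.1) := by fun_prop
    have h2 : LS (fun z : ℕ × ℕ × ℕ => z.2.1) := by fun_prop
    have h3 : LS (fun z : ℕ × ℕ × ℕ => z.2.2) := by fun_prop
    exact ls_selF (fun o => ls_wrO _ o h1 h2 h3) P (ls_k1 h1)
  ls_acc := by
    have hi : LS (fun x : ℕ => x) := by fun_prop
    exact ls_accF P (ls_k1 hi)

/-! ### The computation -/

/-- The last register which was accessed before the step `t`. -/
def cc (P : List Ins) (x y : List Bool) : ℕ → ℕ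
  | 0 => 0
  | t + 1 => ifz (isL P[(conf P x y t).1]? + isSt P[(conf P x y t).1]?) (cc P x y t)
      (uu P (conf P x y t))

/-- The last virtual letter which was read before the step `t`. -/
def ee (P : List Ins) (x y : List Bool) : ℕ → ℕ
  | 0 => 0
  | t + 1 => ifz (inpL P[(conf P x y t).1]?) (ee P x y t)
      (2 * uu P (conf P x y t) + (inpL P[(conf P x y t).1]? - 1))

/-- The state. -/
def stN (P : List Ins) (x y : List Bool) (n t : ℕ) : ℕ :=
  mk (conf P x y t).1 n (tup (bd P + 1) (conf P x y t).2) (cc P x y t) (ee P x y t)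

section

variable {D : LD} {F : List Bool → List Bool} (hF : D.Is F) (P : List Ins) (w y : List Bool)

theorem uF_stN (x : List Bool) (n t : ℕ) : uF (bd P + 1) (stN P x y n t) P[(conf P x y t).1]? =
    uu P (conf P x y t) := by
  unfold uF stN
  rw [k3_mk, getV_tup (Nat.lt_succ_of_le (a0_le P _))]
  rfl

theorem cel_stN (x : List Bool) (n t : ℕ) : (mach D P).cel (stN P x y n t) = cc P x y (t + 1) := by
  show selF (fun o S => ceO (bd P + 1) S o) P (k1 (stN P x y n t)) (stN P x y n t) = _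
  rw [selF_eq]
  have h : k1 (stN P x y n t) = (conf P x y t).1 := k1_mk _ _ _ _ _
  rw [h]
  unfold ceO
  rw [uF_stN]
  have h4 : k4 (stN P x y n t) = cc P x y t := k4_mk _ _ _ _ _
  rw [h4]
  rfl

theorem adr_stN (x : List Bool) (n t : ℕ) : (mach D P).adr (stN P x y n t) = ee P x y (t + 1) := by
  show selF (fun o S => adO (bd P + 1) S o) P (k1 (stN P x y n t)) (stN P x y n t) = _
  rw [selF_eq]
  have h : k1 (stN P x y n t) = (conf P x y t).1 := k1_mk _ _ _ _ _
  rw [h]
  unfold adO
  rw [uF_stN]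
  have h4 : k5 (stN P x y n t) = ee P x y t := k5_mk _ _ _ _ _
  rw [h4]
  rfl

include hF in
theorem vl_even (u : ℕ) : (mach D P).vl w y (2 * u) = lett (F w)[u]? := by
  show lfN D w.length (2 * u) (lett w[adN D w.length (2 * u)]?) _ = _
  unfold lfN adN
  have h1 : 2 * u % 2 = 0 := by omega
  have h2 : 2 * u / 2 = u := by omega
  rw [h1, ifz_zero, ifz_zero, h2, lt_eq hF]
  have := lett_le (F w)[u]?
  omega

theorem vl_odd (u : ℕ) : (mach D P).vl w y (2 * u + 1) = lett y[u]? := by
  show lfN D w.length (2 * u + 1) _ (lett y[adN D w.length (2 * u + 1)]?) = _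
  unfold lfN adN
  have h1 : (2 * u + 1) % 2 = 1 := by omega
  have h2 : (2 * u + 1) / 2 = u := by omega
  rw [h1, ifz_ne one_ne_zero, ifz_ne one_ne_zero, h2]
  have := lett_le y[u]?
  omega

theorem inpL_le (o : Option Ins) : inpL o ≤ 2 := by
  rcases o with _ | o
  · exact Nat.zero_le _
  · cases o <;> simp [inpL]

include hF in
theorem vF_stN (t : ℕ) : vF (bd P + 1) (stN P (F w) y w.length t)
    ((mach D P).vl w y (ee P (F w) y (t + 1))) (mem P (F w) y t (cc P (F w) y (t + 1)))
    P[(conf P (F w) y t).1]? = vvL P (F w) y (conf P (F w) y t) := by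
  unfold vF vvL
  rw [uF_stN]
  have h3 : k3 (stN P (F w) y w.length t) = tup (bd P + 1) (conf P (F w) y t).2 := k3_mk _ _ _ _ _
  rw [h3]
  by_cases h0 : inpL P[(conf P (F w) y t).1]? = 0
  · rw [h0, ifz_zero, ifz_zero]
    by_cases h1 : a1 P[(conf P (F w) y t).1]? (uu P (conf P (F w) y t)) < bd P + 1
    · have e : lt01 (a1 P[(conf P (F w) y t).1]? (uu P (conf P (F w) y t))) (bd P + 1) = 1 := by
        unfold lt01
        rw [if_pos h1]
      rw [e, ifz_ne one_ne_zero, getV_tup h1]
    · have e : lt01 (a1 P[(conf P (F w) y t).1]? (uu P (conf P (F w) y t))) (bd P + 1) = 0 := by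
        unfold lt01
        rw [if_neg h1]
      rw [e, ifz_zero]
      obtain ⟨⟨a, b, hab⟩, hu⟩ := a1_le' (Nat.lt_of_succ_le (Nat.le_of_not_lt h1))
      have hc : cc P (F w) y (t + 1) = uu P (conf P (F w) y t) := by
        show ifz _ _ _ = _
        rw [hab]
        rfl
      rw [hc, hu, mem_eq]
      rw [hu] at h1
      omega
  · rw [ifz_ne h0, ifz_ne h0]
    have he : ee P (F w) y (t + 1) = 2 * uu P (conf P (F w) y t) +
        (inpL P[(conf P (F w) y t).1]? - 1) := ifz_ne h0 _ _
    rw [he]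
    have hle := inpL_le P[(conf P (F w) y t).1]?
    by_cases h1 : inpL P[(conf P (F w) y t).1]? - 1 = 0
    · rw [h1, ifz_zero, add_zero, vl_even hF]
    · have h2 : inpL P[(conf P (F w) y t).1]? - 1 = 1 := by omega
      rw [h2, ifz_ne one_ne_zero, vl_odd]

include hF in
/-- The configurations of the machine. -/
theorem conf_mach (t : ℕ) :
    (mach D P).conf w y t = (stN P (F w) y w.length t, mem P (F w) y t) := by
  induction t with
  | zero =>
    show (mk 0 w.length 0 0 0, fun _ => 0) = _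
    refine Prod.ext ?_ rfl
    show mk 0 w.length 0 0 0 = mk 0 w.length (tup (bd P + 1) fun _ => 0) 0 0
    rw [tup_zero]
  | succ t ih =>
    show (mach D P).step w y ((mach D P).conf w y t) = _
    rw [ih]
    unfold CM.step
    rw [cel_stN, adr_stN]
    have hv := vF_stN hF P w y t
    have h1 : k1 (stN P (F w) y w.length t) = (conf P (F w) y t).1 := k1_mk _ _ _ _ _
    have h2 : k2 (stN P (F w) y w.length t) = w.length := k2_mk _ _ _ _ _
    have h3 : k3 (stN P (F w) y w.length t) = tup (bd P + 1) (conf P (F w) y t).2 :=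
      k3_mk _ _ _ _ _
    have h4 : k4 (stN P (F w) y w.length t) = cc P (F w) y t := k4_mk _ _ _ _ _
    have h5 : k5 (stN P (F w) y w.length t) = ee P (F w) y t := k5_mk _ _ _ _ _
    have hconf : conf P (F w) y (t + 1) = (npc P[(conf P (F w) y t).1]? (conf P (F w) y t).1
        (uu P (conf P (F w) y t)), Function.update (conf P (F w) y t).2
          (dst P[(conf P (F w) y t).1]? (uu P (conf P (F w) y t)))
          (valL P[(conf P (F w) y t).1]? (uu P (conf P (F w) y t))
            (vvL P (F w) y (conf P (F w) y t)))) := by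
      rw [conf_succ, step_eqL]
    refine Prod.ext ?_ ?_
    · show selF (fun o z => nxO (bd P + 1) z.1 z.2.1 z.2.2 o) P (k1 (stN P (F w) y w.length t))
        (stN P (F w) y w.length t, (mach D P).vl w y (ee P (F w) y (t + 1)),
          mem P (F w) y t (cc P (F w) y (t + 1))) = stN P (F w) y w.length (t + 1)
      rw [selF_eq, h1]
      show nxO (bd P + 1) (stN P (F w) y w.length t) ((mach D P).vl w y (ee P (F w) y (t + 1)))
          (mem P (F w) y t (cc P (F w) y (t + 1))) P[(conf P (F w) y t).1]? = _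
      unfold nxO ceO adO
      rw [hv, uF_stN, h1, h2, h3, h4, h5, setV_tup]
      show _ = mk (conf P (F w) y (t + 1)).1 w.length (tup (bd P + 1) (conf P (F w) y (t + 1)).2)
        (cc P (F w) y (t + 1)) (ee P (F w) y (t + 1))
      rw [hconf]
      rfl
    · show Function.update (mem P (F w) y t) (cc P (F w) y (t + 1))
        (selF (fun o z => wrO (bd P + 1) z.1 z.2.1 z.2.2 o) P (k1 (stN P (F w) y w.length t))
        (stN P (F w) y w.length t, (mach D P).vl w y (ee P (F w) y (t + 1)),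
          mem P (F w) y t (cc P (F w) y (t + 1)))) = mem P (F w) y (t + 1)
      rw [selF_eq, h1]
      show Function.update (mem P (F w) y t) (cc P (F w) y (t + 1))
        (wrO (bd P + 1) (stN P (F w) y w.length t) ((mach D P).vl w y (ee P (F w) y (t + 1)))
          (mem P (F w) y t (cc P (F w) y (t + 1))) P[(conf P (F w) y t).1]?) =
        if isSt P[(conf P (F w) y t).1]? = 0 then mem P (F w) y t else
          Function.update (mem P (F w) y t) (uu P (conf P (F w) y t))
            (vvL P (F w) y (conf P (F w) y t))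
      unfold wrO
      rw [hv]
      by_cases h0 : isSt P[(conf P (F w) y t).1]? = 0
      · rw [if_pos h0, h0, ifz_zero, Function.update_eq_self]
      · have h6 : isL P[(conf P (F w) y t).1]? + isSt P[(conf P (F w) y t).1]? ≠ 0 := by omega
        have hc : cc P (F w) y (t + 1) = uu P (conf P (F w) y t) := by
          show ifz (isL P[(conf P (F w) y t).1]? + isSt P[(conf P (F w) y t).1]?)
            (cc P (F w) y t) (uu P (conf P (F w) y t)) = _
          exact ifz_ne h6 _ _
        rw [if_neg h0, ifz_ne h0, hc]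

include hF in
theorem accepts_iff (t : ℕ) : (mach D P).AcceptsAt w y t ↔ AcceptsAt P (F w) y t := by
  unfold CM.AcceptsAt AcceptsAt
  rw [conf_mach hF]
  show accF P (k1 (stN P (F w) y w.length t)) ≠ 0 ↔ _
  have h1 : k1 (stN P (F w) y w.length t) = (conf P (F w) y t).1 := k1_mk _ _ _ _ _
  rw [h1, ← accF_eq_one]
  have := accF_le P (conf P (F w) y t).1
  omega

end

end Pool.Agent.Helper31.UV.PRC
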