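import Pool.Agent.Helper31.UV.PRC
import Pool.Agent.Helper81.RR.Good

/-!
# PRC: the bounds
-/

namespace Pool.Agent.Helper31.UV.PRC

open Pool.Agent.Helper65.LinSpace Pool.Agent.Helper78.Mpc
open Pool.Agent.Helper81.RP (Ins lett AcceptsAt conf uu bd pair_lt pc_le)
open Pool.Agent.Helper92.RE
open Pool.Agent.Helper81.RR (isL isSt tup tup_lt mem mem_lt)
open Pool.Agent.Helper53.UV

/-! ### Counting the changes -/

/-- The number of the changes of `A` before the time `T`. -/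
def nch (A : ℕ → ℕ) (T : ℕ) : ℕ := ((Finset.range T).filter fun u => A (u + 1) ≠ A u).card

theorem nch_succ (A : ℕ → ℕ) (T : ℕ) :
    nch A (T + 1) = nch A T + if A (T + 1) ≠ A T then 1 else 0 := by
  unfold nch
  rw [Finset.range_add_one, Finset.filter_insert]
  split_ifs with h
  · rw [Finset.card_insert_of_notMem (by simp)]
  · rfl

theorem nch_le (A β : ℕ → ℕ) (T : ℕ) (h : ∀ t < T, A (t + 1) = β (t + 1) ∨ A (t + 1) = A t)
    {t : ℕ} (ht : t ≤ T) : nch A t ≤ nch β t + 1 ∧ (A t = β t ∨ nch A t ≤ nch β t) := by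
  induction t with
  | zero =>
    refine ⟨?_, Or.inr ?_⟩
    · show 0 ≤ _
      omega
    · exact le_refl 0
  | succ t ih =>
    obtain ⟨h1, h2⟩ := ih (by omega)
    have h3 := h t (by omega)
    rw [nch_succ, nch_succ]
    by_cases hA : A (t + 1) = A t
    · by_cases hβ : β (t + 1) = β t
      · rw [if_neg (not_not.2 hA), if_neg (not_not.2 hβ), hA, hβ]
        exact ⟨h1, h2⟩
      · rw [if_neg (not_not.2 hA), if_pos hβ]
        exact ⟨by omega, Or.inr (by omega)⟩
    · have h4 : A (t + 1) = β (t + 1) := h3.resolve_right hA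
      by_cases hβ : β (t + 1) = β t
      · have h5 : A t ≠ β t := fun h6 => hA (by rw [h4, hβ, h6])
        have h6 := h2.resolve_left h5
        rw [if_pos hA, if_neg (not_not.2 hβ)]
        exact ⟨by omega, Or.inl h4⟩
      · rw [if_pos hA, if_pos hβ]
        exact ⟨by omega, Or.inl h4⟩

/-! ### The registers and the letters -/

theorem regA_eq (P : List Ins) (c : ℕ × (ℕ → ℕ)) :
    regA P c = if isL P[c.1]? + isSt P[c.1]? = 0 then none else some (uu P c) := by
  unfold regA uu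
  rcases P[c.1]? with _ | o
  · rfl
  · cases o <;> rfl

theorem letA_eq (P : List Ins) (c : ℕ × (ℕ → ℕ)) :
    letA P c = if inpL P[c.1]? = 0 then none else some (uu P c) := by
  unfold letA uu
  rcases P[c.1]? with _ | o
  · rfl
  · cases o <;> rfl

theorem cc_succ (P : List Ins) (x y : List Bool) (t : ℕ) :
    cc P x y (t + 1) = (regA P (conf P x y t)).getD (cc P x y t) := by
  rw [regA_eq]
  show ifz _ _ _ = _
  unfold ifz
  split_ifs <;> rfl

theorem ee_succ (P : List Ins) (x y : List Bool) (t : ℕ) :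
    ee P x y (t + 1) = ee P x y t ∧ letA P (conf P x y t) = none ∨
      ∃ z r, r ≤ 1 ∧ letA P (conf P x y t) = some z ∧ ee P x y (t + 1) = 2 * z + r := by
  rw [letA_eq]
  by_cases h : inpL P[(conf P x y t).1]? = 0
  · refine Or.inl ⟨?_, if_pos h⟩
    show ifz _ _ _ = _
    rw [h, ifz_zero]
  · refine Or.inr ⟨uu P (conf P x y t), inpL P[(conf P x y t).1]? - 1, ?_, if_neg h, ?_⟩
    · have := inpL_le P[(conf P x y t).1]?
      omega
    · show ifz (inpL P[(conf P x y t).1]?) (ee P x y t)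
        (2 * uu P (conf P x y t) + (inpL P[(conf P x y t).1]? - 1)) = _
      exact ifz_ne h _ _

theorem cc_lt {P : List Ins} {x y : List Bool} {T b : ℕ}
    (hb : ∀ u ≤ T, ∀ z, regA P (conf P x y u) = some z → z < 2 ^ b) {t : ℕ} (ht : t ≤ T + 1) :
    cc P x y t < 2 ^ b := by
  induction t with
  | zero => exact Nat.two_pow_pos b
  | succ t ih =>
    rw [cc_succ]
    rcases h : regA P (conf P x y t) with _ | z
    · exact ih (by omega)
    · exact hb t (by omega) z h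

theorem cc_lt' {P : List Ins} {x y : List Bool} {T s : ℕ}
    (hR : ∀ u ≤ T, ∀ i, (conf P x y u).2 i < 2 ^ s) {t : ℕ} (ht : t ≤ T + 1) :
    cc P x y t < 2 ^ s := by
  refine cc_lt (T := T) (fun u hu z hz => ?_) ht
  rw [regA_eq] at hz
  split_ifs at hz
  cases hz
  exact hR u hu _

theorem ee_lt {P : List Ins} {x y : List Bool} {T s : ℕ}
    (hR : ∀ u ≤ T, ∀ i, (conf P x y u).2 i < 2 ^ s) {t : ℕ} (ht : t ≤ T + 1) :
    ee P x y t < 2 ^ (s + 1) := by
  induction t with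
  | zero => exact Nat.two_pow_pos _
  | succ t ih =>
    rcases ee_succ P x y t with ⟨h1, -⟩ | ⟨z, r, hr, h1, h2⟩
    · rw [h1]
      exact ih (by omega)
    · have h3 : z < 2 ^ s := by
        rw [letA_eq] at h1
        split_ifs at h1
        cases h1
        exact hR t (by omega) _
      rw [h2, pow_succ]
      omega

/-! ### The number of the changes -/

section

variable {D : LD} {F : List Bool → List Bool} (hF : D.Is F) (P : List Ins) (w y : List Bool)

include hF in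
theorem chg_le {q x T : ℕ} (hB : InBlocks P (F w) y q x T) (hacc : AcceptsAt P (F w) y T) :
    (mach D P).chg w y (2 * q) 0 0 T ≤ 2 * x + 2 := by
  obtain ⟨β, ω, h1, h2, h3⟩ := hB
  have hnoR : regA P (conf P (F w) y T) = none := by
    unfold regA
    rw [hacc]
  have hnoL : letA P (conf P (F w) y T) = none := by
    unfold letA
    rw [hacc]
  have a1 := (nch_le (fun t => cc P (F w) y (t + 1) / (2 * q)) (fun t => β t / 2) T (by
    intro t ht
    show cc P (F w) y (t + 1 + 1) / (2 * q) = β (t + 1) / 2 ∨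
      cc P (F w) y (t + 1 + 1) / (2 * q) = cc P (F w) y (t + 1) / (2 * q)
    rw [cc_succ P (F w) y (t + 1)]
    rcases h : regA P (conf P (F w) y (t + 1)) with _ | z
    · exact Or.inr rfl
    · rcases Nat.lt_or_ge (t + 1) T with h4 | h4
      · refine Or.inl ?_
        show z / (2 * q) = _
        rw [mul_comm 2 q, ← Nat.div_div_eq_div_mul, h1 (t + 1) h4 z h]
      · have h5 : t + 1 = T := by omega
        rw [h5, hnoR] at h
        cases h) (le_refl T)).1
  have a2 := (nch_le (fun t => ee P (F w) y (t + 1) / (2 * q)) ω T (by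
    intro t ht
    show ee P (F w) y (t + 1 + 1) / (2 * q) = ω (t + 1) ∨
      ee P (F w) y (t + 1 + 1) / (2 * q) = ee P (F w) y (t + 1) / (2 * q)
    rcases ee_succ P (F w) y (t + 1) with ⟨h4, -⟩ | ⟨z, r, hr, h4, h5⟩
    · rw [h4]
      exact Or.inr rfl
    · rcases Nat.lt_or_ge (t + 1) T with h6 | h6
      · refine Or.inl ?_
        rw [h5, ← Nat.div_div_eq_div_mul, show (2 * z + r) / 2 = z by omega, h2 (t + 1) h6 z h4]
      · have h7 : t + 1 = T := by omega
        rw [h7, hnoL] at h4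
        cases h4) (le_refl T)).1
  have c1 : nch (fun t => β t / 2) T ≤ x := by
    refine le_trans ?_ h3
    rw [show nch (fun t => β t / 2) T =
      (((Finset.range T).filter fun u => β (u + 1) / 2 ≠ β u / 2 : Finset ℕ) : Set ℕ).ncard from
        (Set.ncard_coe_finset _).symm]
    refine Set.ncard_le_ncard ?_ ((Set.finite_Iio T).subset fun u hu => hu.1)
    intro u hu
    rw [Finset.mem_coe, Finset.mem_filter, Finset.mem_range] at hu
    exact ⟨hu.1, Or.inl fun h => hu.2 (by rw [h])⟩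
  have c2 : nch ω T ≤ x := by
    refine le_trans ?_ h3
    rw [show nch ω T =
      (((Finset.range T).filter fun u => ω (u + 1) ≠ ω u : Finset ℕ) : Set ℕ).ncard from
        (Set.ncard_coe_finset _).symm]
    refine Set.ncard_le_ncard ?_ ((Set.finite_Iio T).subset fun u hu => hu.1)
    intro u hu
    rw [Finset.mem_coe, Finset.mem_filter, Finset.mem_range] at hu
    exact ⟨hu.1, Or.inr hu.2⟩
  have hcel : ∀ t, (mach D P).cel ((mach D P).conf w y t).1 = cc P (F w) y (t + 1) := fun t => by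
    rw [conf_mach hF]
    exact cel_stN P y (F w) w.length t
  have hadr : ∀ t, (mach D P).adr ((mach D P).conf w y t).1 = ee P (F w) y (t + 1) := fun t => by
    rw [conf_mach hF]
    exact adr_stN P y (F w) w.length t
  unfold CM.chg
  have hsub : {t : ℕ | t < T ∧ (((mach D P).cel ((mach D P).conf w y (t + 1)).1 + 0) / (2 * q) ≠
      ((mach D P).cel ((mach D P).conf w y t).1 + 0) / (2 * q) ∨
      ((mach D P).adr ((mach D P).conf w y (t + 1)).1 + 0) / (2 * q) ≠
      ((mach D P).adr ((mach D P).conf w y t).1 + 0) / (2 * q))} ⊆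
      (((Finset.range T).filter fun u => cc P (F w) y (u + 1 + 1) / (2 * q) ≠
        cc P (F w) y (u + 1) / (2 * q)) ∪ ((Finset.range T).filter fun u =>
        ee P (F w) y (u + 1 + 1) / (2 * q) ≠ ee P (F w) y (u + 1) / (2 * q)) : Finset ℕ) := by
    rintro t ⟨ht, h⟩
    rw [hcel, hcel, hadr, hadr, add_zero, add_zero, add_zero, add_zero] at h
    rw [Finset.mem_coe, Finset.mem_union, Finset.mem_filter, Finset.mem_filter, Finset.mem_range]
    rcases h with h | h
    · exact Or.inl ⟨ht, h⟩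
    · exact Or.inr ⟨ht, h⟩
  refine (Set.ncard_le_ncard hsub (Finset.finite_toSet _)).trans ?_
  rw [Set.ncard_coe_finset]
  refine (Finset.card_union_le _ _).trans ?_
  unfold nch at a1 a2 c1 c2
  dsimp only at a1 a2 c1 c2
  omega

/-! ### Sizes -/

include hF in
theorem fits {s b q T c₀ : ℕ} (hs : 1 ≤ s) (hw : w.length < 2 ^ s) (hq : q < 2 ^ (s + c₀))
    (hR : ∀ u ≤ T, ∀ i, (conf P (F w) y u).2 i < 2 ^ s)
    (hb : ∀ u ≤ T, ∀ z, regA P (conf P (F w) y u) = some z → z < 2 ^ b) :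
    (mach D P).Fits w y (2 * q) 0 0 T
      ((16 * (bd P + 2 ^ (bd P + 1) + 2) + c₀ + 4) * s) b s := by
  set κ := bd P + 2 ^ (bd P + 1) + 2 with hκ
  have lt2 : ∀ {x a b : ℕ}, x < 2 ^ a → a ≤ b → x < 2 ^ b := fun h1 h2 =>
    h1.trans_le (Nat.pow_le_pow_right (by norm_num) h2)
  have hks : κ * s ≤ (16 * κ + c₀ + 4) * s := Nat.mul_le_mul_right _ (by omega)
  have e1 : (16 * κ + c₀ + 4) * s = 16 * (κ * s) + c₀ * s + 4 * s := by ring
  have hc : c₀ ≤ c₀ * s := Nat.le_mul_of_pos_right _ hs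
  have hp0 : 0 < 2 ^ bd P := Nat.two_pow_pos _
  have hκs : 2 * s ≤ κ * s := Nat.mul_le_mul_right _ (by omega)
  have hbk : bd P ≤ κ * s := (by omega : bd P ≤ κ).trans (Nat.le_mul_of_pos_right _ hs)
  intro t ht
  rw [conf_mach hF]
  dsimp only
  have hcel := cel_stN (D := D) P y (F w) w.length t
  have hadr := adr_stN (D := D) P y (F w) w.length t
  rw [hcel, hadr, add_zero, add_zero]
  have hee := ee_lt hR (t := t + 1) (by omega)
  have h2q : 2 * q < 2 ^ (s + c₀ + 1) := by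
    rw [pow_succ]
    omega
  have hsum : ee P (F w) y (t + 1) + 2 * q < 2 ^ (s + c₀ + 2) := by
    have h1 : 2 ^ (s + 1) ≤ 2 ^ (s + c₀ + 1) := Nat.pow_le_pow_right (by norm_num) (by omega)
    rw [pow_succ 2 (s + c₀ + 1)]
    omega
  refine ⟨?_, cc_lt hb (by omega), lt2 hsum (by omega), ?_, fun z => mem_lt hR ht z⟩
  · have hpc := pc_le P (F w) y t
    have p1 : (conf P (F w) y t).1 < 2 ^ (κ * s) :=
      lt_of_le_of_lt (hpc.trans hbk) Nat.lt_two_pow_self
    have p3 : tup (bd P + 1) (conf P (F w) y t).2 < 2 ^ (κ * s) :=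
      lt2 (tup_lt fun i _ => hR t ht i) (Nat.mul_le_mul_right _ (by omega))
    have p4 := cc_lt' hR (t := t) (by omega)
    have p5 := ee_lt hR (t := t) (by omega)
    have h1 := mk_lt p1 (lt2 hw (by omega)) p3 (lt2 p4 (by omega)) (lt2 p5 (by omega))
    exact lt2 h1 (by omega)
  · intro u hu
    show ifz (u % 2) (adr1 D w.length (u / 2)) (u / 2) < _
    unfold ifz
    split_ifs
    · exact lt2 (adr1_lt hw) (by omega)
    · refine lt_of_le_of_lt (Nat.div_le_self u 2) (lt_of_le_of_lt hu (lt2 hsum (by omega)))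

end

/-- The arithmetic. -/
theorem arith {C N N' B₀ l l' s q x κ ch : ℝ} (hl' : 0 ≤ l') (hll : l' ≤ l) (hs : 1 ≤ s)
    (hq : 1 ≤ q) (hx : 0 ≤ x) (hN : 1 ≤ N) (hB₀ : 1 ≤ B₀) (hN0 : 1 ≤ N') (hN' : N' ≤ B₀ * N)
    (hκ : 1 ≤ κ) (hch : ch ≤ 2 * x + 2)
    (b1 : x * s * l ^ 4 ≤ C * N' ^ 2) (b2 : q * s * l ^ 4 ≤ C * N') :
    ch * (κ * s + 1) * l' ^ 4 ≤ 8 * (κ + 5) * |C| * B₀ ^ 2 * N ^ 2 ∧
      (2 * q * (s + 1) + κ * s + q * s) * l' ^ 4 ≤ 8 * (κ + 5) * |C| * B₀ ^ 2 * N := by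
  have hC := abs_nonneg C
  have hCC := le_abs_self C
  have hl4 : l' ^ 4 ≤ l ^ 4 := pow_le_pow_left₀ hl' hll 4
  have hl40 : 0 ≤ l' ^ 4 := pow_nonneg hl' 4
  have hl : 0 ≤ l ^ 4 := hl40.trans hl4
  have hNN : B₀ * N ≤ B₀ ^ 2 * N := mul_le_mul_of_nonneg_right (by nlinarith) (by linarith)
  have hNN2 : B₀ ^ 2 * N ≤ B₀ ^ 2 * N ^ 2 :=
    mul_le_mul_of_nonneg_left (by nlinarith) (sq_nonneg _)
  have c2 : q * s * l ^ 4 ≤ |C| * (B₀ ^ 2 * N) := by
    calc q * s * l ^ 4 ≤ C * N' := b2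
      _ ≤ |C| * N' := mul_le_mul_of_nonneg_right hCC (by linarith)
      _ ≤ |C| * (B₀ ^ 2 * N) := mul_le_mul_of_nonneg_left (hN'.trans hNN) hC
  have c3 : s * l ^ 4 ≤ q * s * l ^ 4 := by
    have h1 : s * l ^ 4 ≤ q * (s * l ^ 4) :=
      le_mul_of_one_le_left (mul_nonneg (by linarith) hl) hq
    linarith
  have c1 : x * s * l ^ 4 ≤ |C| * (B₀ ^ 2 * N ^ 2) := by
    calc x * s * l ^ 4 ≤ C * N' ^ 2 := b1
      _ ≤ |C| * N' ^ 2 := mul_le_mul_of_nonneg_right hCC (sq_nonneg _)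
      _ ≤ |C| * (B₀ * N) ^ 2 :=
        mul_le_mul_of_nonneg_left (pow_le_pow_left₀ (by linarith) hN' 2) hC
      _ = _ := by ring
  have c4 : |C| * (B₀ ^ 2 * N) ≤ |C| * (B₀ ^ 2 * N ^ 2) := mul_le_mul_of_nonneg_left hNN2 hC
  have z1 : 0 ≤ |C| * (B₀ ^ 2 * N) :=
    mul_nonneg hC (mul_nonneg (sq_nonneg _) (by linarith))
  have z2 : 0 ≤ |C| * (B₀ ^ 2 * N ^ 2) := z1.trans c4
  constructor
  · have h1 : κ * s + 1 ≤ (κ + 1) * s := by nlinarith
    have h2 : ch * (κ * s + 1) ≤ (2 * x + 2) * ((κ + 1) * s) :=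
      mul_le_mul hch h1 (by nlinarith) (by linarith)
    calc ch * (κ * s + 1) * l' ^ 4 ≤ (2 * x + 2) * ((κ + 1) * s) * l' ^ 4 :=
          mul_le_mul_of_nonneg_right h2 hl40
      _ ≤ (2 * x + 2) * ((κ + 1) * s) * l ^ 4 :=
          mul_le_mul_of_nonneg_left hl4 (mul_nonneg (by linarith)
            (mul_nonneg (by linarith) (by linarith)))
      _ = (κ + 1) * (2 * (x * s * l ^ 4) + 2 * (s * l ^ 4)) := by ring
      _ ≤ (κ + 1) * (4 * (|C| * (B₀ ^ 2 * N ^ 2))) :=
          mul_le_mul_of_nonneg_left (by linarith) (by linarith)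
      _ ≤ 8 * (κ + 5) * (|C| * (B₀ ^ 2 * N ^ 2)) := by nlinarith
      _ = _ := by ring
  · have g1 : q ≤ q * s := le_mul_of_one_le_right (by linarith) hs
    have g2 : κ * s ≤ κ * (q * s) :=
      mul_le_mul_of_nonneg_left (le_mul_of_one_le_left (by linarith) hq) (by linarith)
    have h1 : 2 * q * (s + 1) + κ * s + q * s ≤ (κ + 5) * (q * s) := by linarith
    calc (2 * q * (s + 1) + κ * s + q * s) * l' ^ 4 ≤ (κ + 5) * (q * s) * l' ^ 4 :=
          mul_le_mul_of_nonneg_right h1 hl40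
      _ ≤ (κ + 5) * (q * s) * l ^ 4 :=
          mul_le_mul_of_nonneg_left hl4 (mul_nonneg (by linarith)
            (mul_nonneg (by linarith) (by linarith)))
      _ = (κ + 5) * (q * s * l ^ 4) := by ring
      _ ≤ (κ + 5) * (|C| * (B₀ ^ 2 * N)) := mul_le_mul_of_nonneg_left c2 (by linarith)
      _ ≤ 8 * (κ + 5) * (|C| * (B₀ ^ 2 * N)) := by nlinarith
      _ = _ := by ring

/-- **PRC**. -/
theorem gPRC : GoalPRC := by
  intro P D F hF
  refine ⟨mach D P, fun w y t h => ⟨t, (accepts_iff hF P w y t).1 h⟩, ?_⟩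
  intro b₀ C hlen hle
  obtain ⟨c₀, hc₀⟩ := exists_nat_gt |C|
  have hc₀' : |C| < (2 : ℝ) ^ c₀ :=
    hc₀.trans (by exact_mod_cast Nat.lt_two_pow_self)
  set κ : ℕ := 16 * (bd P + 2 ^ (bd P + 1) + 2) + c₀ + 4 with hκ
  refine ⟨8 * ((κ : ℝ) + 5) * |C| * ((b₀ : ℝ) + 1) ^ 2, ?_⟩
  rintro w y ⟨T, s, b, q, x, hls, hq0, hacc, hT, hR, hb, hB, b1, b2⟩
  have hs1 : 1 ≤ s := by omega
  have hFs : (F w).length < 2 ^ s :=
    (Nat.lt_pow_succ_log_self (by norm_num) _).trans_le (Nat.pow_le_pow_right (by norm_num) hls)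
  have hws : w.length < 2 ^ s := (hle w).trans_lt hFs
  have hl1 : (1 : ℝ) ≤ (b : ℝ) + ((Nat.log 2 (F w).length : ℝ) + 1) := by
    have h1 : (0 : ℝ) ≤ (b : ℝ) := Nat.cast_nonneg _
    have h2 : (0 : ℝ) ≤ (Nat.log 2 (F w).length : ℝ) := Nat.cast_nonneg _
    linarith
  have hsR : (1 : ℝ) ≤ s := by exact_mod_cast hs1
  have hqR : (1 : ℝ) ≤ q := by exact_mod_cast hq0
  have hqC : q < 2 ^ (s + c₀) := by
    have h1 : (q : ℝ) ≤ q * s * ((b : ℝ) + ((Nat.log 2 (F w).length : ℝ) + 1)) ^ 4 := by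
      have h2 : (1 : ℝ) ≤ ((b : ℝ) + ((Nat.log 2 (F w).length : ℝ) + 1)) ^ 4 := one_le_pow₀ hl1
      have h3 : (q : ℝ) ≤ q * s := le_mul_of_one_le_right (by linarith) hsR
      exact h3.trans (le_mul_of_one_le_right (mul_nonneg (by linarith) (by linarith)) h2)
    have h2 : ((F w).length : ℝ) + 1 ≤ (2 : ℝ) ^ s := by exact_mod_cast hFs
    have h3 : (q : ℝ) ≤ |C| * 2 ^ s := by
      refine (h1.trans b2).trans ?_
      calc C * (((F w).length : ℝ) + 1) ≤ |C| * (((F w).length : ℝ) + 1) :=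
            mul_le_mul_of_nonneg_right (le_abs_self C) (by positivity)
        _ ≤ |C| * 2 ^ s := mul_le_mul_of_nonneg_left h2 (abs_nonneg C)
    have h4 : (q : ℝ) < 2 ^ (s + c₀) := by
      rw [pow_add]
      calc (q : ℝ) ≤ |C| * 2 ^ s := h3
        _ < 2 ^ c₀ * 2 ^ s := mul_lt_mul_of_pos_right hc₀' (by positivity)
        _ = _ := mul_comm _ _
    exact_mod_cast h4
  have hfit := fits hF P w y hs1 hws hqC hR hb
  have hchg := chg_le hF P w y hB hacc
  have hN' : ((F w).length : ℝ) + 1 ≤ ((b₀ : ℝ) + 1) * ((w.length : ℝ) + 1) := by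
    have h1 : (F w).length + 1 ≤ (b₀ + 1) * (w.length + 1) := by
      have h2 := hlen w
      calc (F w).length + 1 ≤ b₀ * (w.length + 1) + 1 := by omega
        _ ≤ (b₀ + 1) * (w.length + 1) := by nlinarith
    exact_mod_cast h1
  have hlog : (Nat.log 2 w.length : ℝ) ≤ Nat.log 2 (F w).length := by
    exact_mod_cast Nat.log_mono_right (hle w)
  have hκ1 : (1 : ℝ) ≤ (κ : ℝ) := by
    have : 1 ≤ κ := by omega
    exact_mod_cast this
  have hw0 : (0 : ℝ) ≤ w.length := Nat.cast_nonneg _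
  have hF0 : (0 : ℝ) ≤ (F w).length := Nat.cast_nonneg _
  have hb0 : (0 : ℝ) ≤ b₀ := Nat.cast_nonneg _
  have hA := arith (C := C) (N := (w.length : ℝ) + 1) (N' := ((F w).length : ℝ) + 1)
    (B₀ := (b₀ : ℝ) + 1) (l := (b : ℝ) + ((Nat.log 2 (F w).length : ℝ) + 1))
    (l' := (b : ℝ) + ((Nat.log 2 w.length : ℝ) + 1)) (s := s) (q := q) (x := x) (κ := κ)
    (ch := ((mach D P).chg w y (2 * q) 0 0 T : ℝ)) (by positivity) (by linarith) hsR hqR
    (Nat.cast_nonneg _) (by linarith) (by linarith) (by linarith) hN' hκ1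
    (by exact_mod_cast hchg) b1 b2
  have hks : s ≤ κ * s := Nat.le_mul_of_pos_left _ (by omega)
  refine ⟨2 * q, 0, 0, T, κ * s, b, s, q * s, by omega, (accepts_iff hF P w y T).2 hacc, hT,
    hws.trans_le (Nat.pow_le_pow_right (by norm_num) hks), Nat.two_pow_pos _, hfit, ?_, ?_⟩
  · have h1 := hA.1
    push_cast
    exact h1
  · have h1 := hA.2
    push_cast
    exact h1

end Pool.Agent.Helper31.UV.PRC
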